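import Mathlib

set_option autoImplicit false

namespace Pool.Agent.Results.MP_2af528_co.Counter

/-- a family of pairwise disjoint intervals covering the poset -/
def IsIntervalPartition {S : Type} [PartialOrder S] (P : Finset (Set S)) : Prop :=
  (∀ B ∈ P, ∃ x y, x ≤ y ∧ B = Set.Icc x y) ∧
    (∀ B ∈ P, ∀ C ∈ P, B ≠ C → Disjoint B C) ∧ ∀ z, ∃ B ∈ P, z ∈ B

def IsOptimum {S : Type} [PartialOrder S] (P : Finset (Set S)) : Prop :=
  IsIntervalPartition P ∧ ∀ Q : Finset (Set S), IsIntervalPartition Q → P.card ≤ Q.card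

def T : Type := Fin 11

instance : DecidableEq T := inferInstanceAs (DecidableEq (Fin 11))
instance : Fintype T := inferInstanceAs (Fintype (Fin 11))

/-- 0 is least; 1, 2 lie below 3, …, 8; 3, 4, 5 lie below 9; 6, 7, 8 lie below 10 -/
def le' (x y : Fin 11) : Bool :=
  x == y || x.val == 0 || (x.val ≤ 2 && 3 ≤ y.val) || (x.val ≤ 5 && y.val == 9) ||
    (6 ≤ x.val && x.val ≤ 8 && y.val == 10)

instance : PartialOrder T where
  le x y := le' x y = true
  le_refl := by decide +kernel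
  le_trans := by decide +kernel
  le_antisymm := by decide +kernel

instance : DecidableRel (α := T) (· ≤ ·) := fun x y => inferInstanceAs (Decidable (le' x y = true))

def e (n : Fin 11) : T := n

theorem four {P : Finset (Set T)} (hP : IsIntervalPartition P) (y a b c : T)
    (hy : Set.Icc (e 0) y ∈ P) (h1 : ¬ a ≤ y ∧ ¬ b ≤ y ∧ ¬ c ≤ y)
    (h2 : ∀ x, (x ≤ a ∧ x ≤ b) ∨ (x ≤ a ∧ x ≤ c) ∨ (x ≤ b ∧ x ≤ c) → e 0 ≤ x ∧ x ≤ y) :
    3 < P.card := by
  classical
  obtain ⟨A, hA, ha⟩ := hP.2.2 a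
  obtain ⟨B, hB, hb⟩ := hP.2.2 b
  obtain ⟨C, hC, hc⟩ := hP.2.2 c
  have nA : A ≠ Set.Icc (e 0) y := by rintro rfl; exact h1.1 ha.2
  have nB : B ≠ Set.Icc (e 0) y := by rintro rfl; exact h1.2.1 hb.2
  have nC : C ≠ Set.Icc (e 0) y := by rintro rfl; exact h1.2.2 hc.2
  have key : ∀ D ∈ P, D ≠ Set.Icc (e 0) y → ∀ p ∈ D, ∀ q ∈ D,
      ¬ ∀ x, x ≤ p → x ≤ q → e 0 ≤ x ∧ x ≤ y := by
    intro D hD nD p hp q hq h
    obtain ⟨u, v, huv, rfl⟩ := hP.1 D hD
    exact Set.disjoint_left.1 (hP.2.1 _ hD _ hy nD) ⟨le_rfl, huv⟩ (h u hp.1 hq.1)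
  have ab : A ≠ B := by
    rintro rfl; exact key A hA nA a ha b hb fun x p q => h2 x (Or.inl ⟨p, q⟩)
  have ac : A ≠ C := by
    rintro rfl; exact key A hA nA a ha c hc fun x p q => h2 x (Or.inr (Or.inl ⟨p, q⟩))
  have bc : B ≠ C := by
    rintro rfl; exact key B hB nB b hb c hc fun x p q => h2 x (Or.inr (Or.inr ⟨p, q⟩))
  have : ({Set.Icc (e 0) y, A, B, C} : Finset (Set T)) ⊆ P := by
    intro D hD
    simp only [Finset.mem_insert, Finset.mem_singleton] at hD
    rcases hD with rfl | rfl | rfl | rfl <;> assumption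
  have h4 := Finset.card_le_card this
  rw [Finset.card_insert_of_notMem (by simp [nA.symm, nB.symm, nC.symm]),
    Finset.card_insert_of_notMem (by simp [ab, ac]), Finset.card_pair bc] at h4
  omega

theorem result : ∃ (S : Type) (_ : Fintype S) (_ : Nonempty S) (_ : PartialOrder S),
    ∀ P : Finset (Set S), IsOptimum P →
      ¬ ∃ x y : S, IsMin x ∧ IsMax y ∧ x ≤ y ∧ Set.Icc x y ∈ P := by
  classical
  refine ⟨T, inferInstance, ⟨e 0⟩, inferInstance, ?_⟩
  rintro P ⟨hP, hopt⟩ ⟨x, y, hx, hy, -, hxy⟩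
  have h3 := hopt {Set.Icc (e 0) (e 0), Set.Icc (e 1) (e 9), Set.Icc (e 2) (e 10)} (by
    refine ⟨?_, ?_, ?_⟩
    · intro B hB
      simp only [Finset.mem_insert, Finset.mem_singleton] at hB
      rcases hB with rfl | rfl | rfl <;> exact ⟨_, _, by decide +kernel, rfl⟩
    · intro B hB C hC hne
      simp only [Finset.mem_insert, Finset.mem_singleton] at hB hC
      rcases hB with rfl | rfl | rfl <;> rcases hC with rfl | rfl | rfl <;>
        first
          | exact absurd rfl hne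
          | (simp only [Set.disjoint_left, Set.mem_Icc]; decide +kernel)
    · intro z
      simp only [Finset.mem_insert, Finset.mem_singleton, exists_eq_or_imp, exists_eq_left,
        Set.mem_Icc]
      revert z
      decide +kernel)
  have h4 : P.card ≤ 3 := h3.trans Finset.card_le_three
  have hx0 : x = e 0 := by
    have : ∀ x : T, e 0 ≤ x := by decide +kernel
    exact le_antisymm (hx (this x)) (this x)
  have hy' : y = e 9 ∨ y = e 10 := by
    have : ∀ y : T, (∀ b, y ≤ b → b ≤ y) → y = e 9 ∨ y = e 10 := by decide +kernel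
    exact this y fun b hb => hy hb
  subst hx0
  rcases hy' with rfl | rfl
  · exact absurd (four hP _ (e 6) (e 7) (e 8) hxy (by decide +kernel) (by decide +kernel))
      (by omega)
  · exact absurd (four hP _ (e 3) (e 4) (e 5) hxy (by decide +kernel) (by decide +kernel))
      (by omega)

end Pool.Agent.Results.MP_2af528_co.Counter
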